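import Pool.Agent.Run7.h560.AP.Forms

set_option autoImplicit false

/-!
# Sums of two members of (almost) twin primes, one of them with restricted digits
-/

namespace Pool.Agent.Results.MP_c6d112_nt.DigitTwinSums

open Finset
open Pool.Agent.Run7.h560.AP

/-- the coefficients of the four forms `n`, `n + 2 ε`, `N - n`, `N - n + 2 ε'` -/
def fa : Fin 4 → ℤ := ![1, 1, -1, -1]

/-- the constants of the four forms -/
def fc (N : ℕ) (ε ε' : ℤ) : Fin 4 → ℤ := ![0, 2 * ε, N, N + 2 * ε']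

/-- the number of the residue classes `n` modulo `p` for which `p` divides `n (n + 2 ε) (N - n) (N - n + 2 ε')` -/
noncomputable def bad (N : ℕ) (ε ε' : ℤ) (p : ℕ) : ℕ :=
  Set.ncard {n : ℕ | n < p ∧ (p : ℤ) ∣ (n : ℤ) * (n + 2 * ε) * (N - n) * (N - n + 2 * ε')}

/-- the density `∏ (1 - bad(p) / p)` over the primes `p ≤ N` -/
noncomputable def dens (N : ℕ) (ε ε' : ℤ) : ℝ := ∏ p ∈ (range (N + 1)).filter Nat.Prime, (1 - (bad N ε ε' p : ℝ) / p)

lemma rho_bad (N : ℕ) (ε ε' : ℤ) (p : ℕ) : rho fa (fc N ε ε') p = bad N ε ε' p := by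
  apply rho_ncard
  intro n
  rw [Fin.prod_univ_four]
  simp only [fa, fc, Matrix.cons_val_zero, Matrix.cons_val_one, Matrix.cons_val]
  ring

lemma forms_ok (N : ℕ) (ε ε' : ℤ) : ∀ i, fa i ≠ 0 ∧ IsCoprime (fa i) (fc N ε ε' i) := by
  intro i
  fin_cases i
  · exact ⟨by simp [fa], isCoprime_one_left⟩
  · exact ⟨by simp [fa], isCoprime_one_left⟩
  · exact ⟨by simp [fa], isCoprime_one_left.neg_left⟩
  · exact ⟨by simp [fa], isCoprime_one_left.neg_left⟩

lemma admissible (N : ℕ) (hN : Even N) (ε ε' : ℤ) (hε : ε = 1 ∨ ε = -1) (hε' : ε' = 1 ∨ ε' = -1)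
    (h3 : (3 : ℤ) ∣ N + ε + ε') (p : ℕ) (hp : p.Prime) : rho fa (fc N ε ε') p < p := by
  by_cases h5 : 5 ≤ p
  · have := rho_le fa (fc N ε ε') (fun i => (forms_ok N ε ε' i).2) p hp
    omega
  · have hp2 := hp.two_le
    have hp4 : p ≠ 4 := by
      rintro rfl
      norm_num at hp
    apply rho_lt _ _ p hp
    obtain ⟨t, ht⟩ := hN
    obtain ⟨s, hs⟩ := h3
    have hp23 : p = 2 ∨ p = 3 := by omega
    rcases hp23 with rfl | rfl
    · refine ⟨1, fun i => ?_⟩
      fin_cases i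
      · simp [fa, fc]
        try omega
      · simp [fa, fc]
        try omega
      · simp [fa, fc]
        try omega
      · simp [fa, fc]
        try omega
    · rcases hε with rfl | rfl
      · refine ⟨2, fun i => ?_⟩
        fin_cases i
        · simp [fa, fc]
          try omega
        · simp [fa, fc]
          try omega
        · simp [fa, fc]
          try omega
        · simp [fa, fc]
          try omega
      · refine ⟨1, fun i => ?_⟩
        fin_cases i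
        · simp [fa, fc]
          try omega
        · simp [fa, fc]
          try omega
        · simp [fa, fc]
          try omega
        · simp [fa, fc]
          try omega

/-- **Main theorem.** -/
theorem result :
    (∀ b : ℕ, 2 ≤ b → ∀ (σ : Type) [Fintype σ] (M : DFA ℕ σ), NonSparse (autoSet b M) →
      ∃ (C : ℝ) (N₀ : ℕ), 0 < C ∧ ∀ N : ℕ, N₀ ≤ N → Even N → ∀ ε ε' : ℤ, (ε = 1 ∨ ε = -1) → (ε' = 1 ∨ ε' = -1) →
      (3 : ℤ) ∣ N + ε + ε' →
        (Set.ncard {n : ℕ | n ∈ autoSet b M ∧ n < N ∧ n.Prime ∧ ((n : ℤ) + 2 * ε).toNat.Prime ∧ (N - n).Prime ∧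
          ((N : ℤ) - n + 2 * ε').toNat.Prime} : ℝ) ≤ C * below (autoSet b M) N * dens N ε ε') ∧
    (∀ b : ℕ, 2 ≤ b → ∀ S : Finset ℕ, 0 ∈ S → 1 ∈ S → ∃ (R : ℕ) (η c c' : ℝ) (N₀ : ℕ), 0 < η ∧ 0 < c ∧ 0 < c' ∧
      ∀ N : ℕ, N₀ ≤ N → Even N → ∀ ε ε' : ℤ, (ε = 1 ∨ ε = -1) → (ε' = 1 ∨ ε' = -1) → (3 : ℤ) ∣ N + ε + ε' →
      (∃ e ∈ S, e < b ∧ IsCoprime (e : ℤ) b ∧ IsCoprime ((e : ℤ) + 2 * ε) b ∧ IsCoprime ((N : ℤ) - e) b ∧
        IsCoprime ((N : ℤ) - e + 2 * ε') b) →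
        c' / Real.log N ^ 4 ≤ dens N ε ε' ∧
        c * below (digitSet b S) N * dens N ε ε' ≤
          (Set.ncard {n : ℕ | n ∈ digitSet b S ∧ n < N ∧ Almost R ((N : ℝ) ^ η) n ∧
            Almost R ((N : ℝ) ^ η) ((n : ℤ) + 2 * ε).toNat ∧ Almost R ((N : ℝ) ^ η) (N - n) ∧
            Almost R ((N : ℝ) ^ η) ((N : ℤ) - n + 2 * ε').toNat} : ℝ)) := by
  classical
  have hdens : ∀ (N : ℕ) (ε ε' : ℤ), ∏ p ∈ (range (N + 1)).filter Nat.Prime, (1 - (rho fa (fc N ε ε') p : ℝ) / p) = dens N ε ε' := by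
    intro N ε ε'
    unfold dens
    apply prod_congr rfl
    intro p _
    rw [rho_bad]
  refine ⟨fun b hb σ _ M hM => ?_, fun b hb S h0 h1 => ?_⟩
  · obtain ⟨C, N₀, hC, h⟩ := sys_upper b hb M (nonsparse b M hM) 4
    refine ⟨C, N₀, hC, fun N hN hNe ε ε' hε hε' h3 => ?_⟩
    have h2 := h N hN fa (fc N ε ε') (forms_ok N ε ε') (fun p hp => admissible N hNe ε ε' hε hε' h3 p hp)
    rw [hdens] at h2
    rw [below_cnt]
    refine le_trans ?_ h2
    rw [Nat.cast_le]
    apply ncard_le_cnt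
    rintro n ⟨a1, a2, a3, a4, a5, a6⟩
    refine ⟨a1, a2, fun i => ?_⟩
    fin_cases i
    · simpa [fa, fc] using a3
    · have e1 : (((n : ℤ) + 2 * ε).toNat : ℤ) = (n : ℤ) + 2 * ε := by
        apply Int.toNat_of_nonneg
        by_contra hcon
        rw [Int.toNat_of_nonpos (by omega)] at a4
        exact Nat.not_prime_zero a4
      have e2 : (1 * (n : ℤ) + 2 * ε) = (((n : ℤ) + 2 * ε).toNat : ℤ) := by rw [e1, one_mul]
      show (1 * (n : ℤ) + 2 * ε).natAbs.Prime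
      rw [e2, Int.natAbs_natCast]
      exact a4
    · have e2 : (-1 * (n : ℤ) + N) = ((N - n : ℕ) : ℤ) := by
        rw [Nat.cast_sub a2.le]
        ring
      show (-1 * (n : ℤ) + N).natAbs.Prime
      rw [e2, Int.natAbs_natCast]
      exact a5
    · have e1 : (((N : ℤ) - n + 2 * ε').toNat : ℤ) = (N : ℤ) - n + 2 * ε' := by
        apply Int.toNat_of_nonneg
        by_contra hcon
        rw [Int.toNat_of_nonpos (by omega)] at a6
        exact Nat.not_prime_zero a6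
      have e2 : (-1 * (n : ℤ) + (N + 2 * ε')) = (((N : ℤ) - n + 2 * ε').toNat : ℤ) := by rw [e1]; ring
      show (-1 * (n : ℤ) + (N + 2 * ε')).natAbs.Prime
      rw [e2, Int.natAbs_natCast]
      exact a6
  · obtain ⟨R, η, c₀, N₀, hη, hc₀, h⟩ := digits_lower b hb S h0 h1 4 2
    obtain ⟨c₁, hc₁, hlow⟩ := prod_low 4
    obtain ⟨N₁, hlarge⟩ := main_large b hb S h0 h1 4 (c₀ * c₁) (by positivity) 10 (by norm_num)
    refine ⟨R, η, c₀ / 2, c₁, N₀ + N₁ + 4, hη, by positivity, hc₁, fun N hN hNe ε ε' hε hε' h3 he => ?_⟩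
    have hadm : ∀ p : ℕ, p.Prime → rho fa (fc N ε ε') p < p := fun p hp => admissible N hNe ε ε' hε hε' h3 p hp
    have hd := hlow (rho fa (fc N ε ε')) N (by omega) (fun p hp =>
      ⟨rho_le fa (fc N ε ε') (fun i => (forms_ok N ε ε' i).2) p hp, hadm p hp⟩)
    have hdens' := hdens N ε ε'
    have hprs : ∏ p ∈ prs N, (1 - (rho fa (fc N ε ε') p : ℝ) / p) = dens N ε ε' := hdens'
    rw [hprs] at hd
    refine ⟨hd, ?_⟩
    obtain ⟨e, heS, heb, he1, he2, he3, he4⟩ := he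
    have hN4 : N + 2 ≤ N ^ 2 := by nlinarith
    have h2 := h N (by omega) fa (fc N ε ε') (fun i => (forms_ok N ε ε' i).2) (by
      intro i
      have hN1 : 1 ≤ N ^ 2 := by nlinarith
      fin_cases i
      · refine ⟨by simpa [fa] using hN1, ?_⟩
        show (0 : ℤ).natAbs ≤ N ^ 2
        simp
      · refine ⟨by simpa [fa] using hN1, ?_⟩
        show (2 * ε).natAbs ≤ N ^ 2
        rcases hε with rfl | rfl <;> norm_num <;> omega
      · refine ⟨by simpa [fa] using hN1, ?_⟩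
        show (N : ℤ).natAbs ≤ N ^ 2
        rw [Int.natAbs_natCast]
        omega
      · refine ⟨by simpa [fa] using hN1, ?_⟩
        show ((N : ℤ) + 2 * ε').natAbs ≤ N ^ 2
        rcases hε' with rfl | rfl <;> omega) (fun p hp _ => hadm p hp) ⟨e, heS, heb, by
      intro i
      fin_cases i
      · show IsCoprime (1 * (e : ℤ) + 0) (b : ℤ)
        rw [one_mul, add_zero]
        exact he1
      · show IsCoprime (1 * (e : ℤ) + 2 * ε) (b : ℤ)
        rw [one_mul]
        exact he2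
      · show IsCoprime (-1 * (e : ℤ) + N) (b : ℤ)
        have e1 : (-1 * (e : ℤ) + N) = N - e := by ring
        rw [e1]
        exact he3
      · show IsCoprime (-1 * (e : ℤ) + (N + 2 * ε')) (b : ℤ)
        have e1 : (-1 * (e : ℤ) + (N + 2 * ε')) = N - e + 2 * ε' := by ring
        rw [e1]
        exact he4⟩
    rw [hdens] at h2
    have h3' := cnt_le_ncard b (dfa S) N
      (fun n => ∀ i, fa i * n + fc N ε ε' i ≠ 0 ∧ (fa i * n + fc N ε ε' i).natAbs.primeFactorsList.length ≤ R ∧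
        ∀ p : ℕ, p.Prime → (p : ℤ) ∣ fa i * n + fc N ε ε' i → (N : ℝ) ^ η < p)
      {n : ℕ | n ∈ autoSet b (dfa S) ∧ n < N ∧ Almost R ((N : ℝ) ^ η) n ∧
            Almost R ((N : ℝ) ^ η) ((n : ℤ) + 2 * ε).toNat ∧ Almost R ((N : ℝ) ^ η) (N - n) ∧
            Almost R ((N : ℝ) ^ η) ((N : ℤ) - n + 2 * ε').toNat}
      (fin_lt N _ (fun n hn => hn.2.1)) (range 3 ∪ Ico (N - 2) N) (by
      intro n a1 a2 a3
      by_cases hn : n < 3 ∨ N - 2 ≤ n
      · right
        rw [mem_union, mem_range, mem_Ico]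
        omega
      · left
        push Not at hn
        have hal : ∀ (v : ℤ) (q : ℕ), v = q → (v ≠ 0 ∧ v.natAbs.primeFactorsList.length ≤ R ∧
            ∀ p : ℕ, p.Prime → (p : ℤ) ∣ v → (N : ℝ) ^ η < p) → Almost R ((N : ℝ) ^ η) q := by
          rintro v q hv ⟨b1, b2, b3⟩
          rw [hv] at b1 b2 b3
          rw [Int.natAbs_natCast] at b2
          exact ⟨by exact_mod_cast b1, b2, fun p hp hpd => b3 p hp (Int.natCast_dvd_natCast.2 hpd)⟩
        refine ⟨a1, a2, hal _ n ?_ (a3 0), hal _ _ ?_ (a3 1), hal _ _ ?_ (a3 2), hal _ _ ?_ (a3 3)⟩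
        · show 1 * (n : ℤ) + 0 = n
          ring
        · show 1 * (n : ℤ) + 2 * ε = _
          rw [Int.toNat_of_nonneg (by rcases hε with rfl | rfl <;> omega)]
          ring
        · show -1 * (n : ℤ) + N = _
          rw [Nat.cast_sub a2.le]
          ring
        · show -1 * (n : ℤ) + (N + 2 * ε') = _
          rw [Int.toNat_of_nonneg (by rcases hε' with rfl | rfl <;> omega)]
          ring)
    have hT : (range 3 ∪ Ico (N - 2) N).card ≤ 5 := by
      refine (card_union_le _ _).trans ?_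
      rw [card_range, Nat.card_Ico]
      omega
    rw [digit_auto, below_cnt]
    have h4 := hlarge N (by omega)
    obtain ⟨x, hx⟩ : ∃ x : ℝ, x = cnt b (dfa S) N (fun _ => True) := ⟨_, rfl⟩
    have hx0 : 0 ≤ x := by rw [hx]; positivity
    rw [← hx] at h4 h2 ⊢
    have h5 : c₀ * c₁ * x / Real.log N ^ 4 ≤ c₀ * x * dens N ε ε' := by
      calc c₀ * c₁ * x / Real.log N ^ 4 = c₀ * x * (c₁ / Real.log N ^ 4) := by ring
        _ ≤ _ := mul_le_mul_of_nonneg_left hd (by positivity)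
    have h6 : (cnt b (dfa S) N (fun n => ∀ i, fa i * n + fc N ε ε' i ≠ 0 ∧ (fa i * n + fc N ε ε' i).natAbs.primeFactorsList.length ≤ R ∧
        ∀ p : ℕ, p.Prime → (p : ℤ) ∣ fa i * n + fc N ε ε' i → (N : ℝ) ^ η < p) : ℝ) ≤
        (Set.ncard {n : ℕ | n ∈ autoSet b (dfa S) ∧ n < N ∧ Almost R ((N : ℝ) ^ η) n ∧
            Almost R ((N : ℝ) ^ η) ((n : ℤ) + 2 * ε).toNat ∧ Almost R ((N : ℝ) ^ η) (N - n) ∧
            Almost R ((N : ℝ) ^ η) ((N : ℤ) - n + 2 * ε').toNat} : ℝ) + 5 := by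
      have := h3'.trans (Nat.add_le_add_left hT _)
      exact_mod_cast this
    linarith

end Pool.Agent.Results.MP_c6d112_nt.DigitTwinSums
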