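import Mathlib
import Pool.Agent.Run7.h402.PD.D13

/-!
# `N = p + q` with long constellations of primes around `p` and `q`

For all `A`, `B` there is `C` such that for all large `X`, all `k ≤ B log log X`, every distribution of `k` shifts `h_1, …, h_k`
to the two summands (`σ i` says whether `h_i` is added to `p` or to `q`) and every box for `(N, h_1, …, h_k)` inside of
`[-X, X] ^ (k + 1)` with sides at least `X ^ (1/3) (log X) ^ C`: for all but the proportion `1 / (log X) ^ A` of the members of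
the box the number of the `p` in any interval `(y₁, y₂]`, `y₂ ≤ X`, for which `p`, `q = N - p` and all the `p + h_i` (`σ i` true)
and `q + h_i` (`σ i` false) are primes is given by the formula of Hardy and Littlewood; and for `X / 2 ≤ N`, nonnegative shifts
and no local obstruction there are such `p`.
-/

set_option autoImplicit false

open Finset
open Filter (Tendsto atTop)
open scoped Topology Classical

namespace Pool.Agent.Results.MP_c6d112_nt.SumsWithLongConstellations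

/-- for `w = (N, h_1, …, h_k)`: the numbers `p`, `N - p` and `p + h_i` or `N - p + h_i` -/
def member {k : ℕ} (σ : Fin k → Bool) (w : Fin (k + 1) → ℤ) (p : ℤ) : Fin (k + 2) → ℤ :=
  Fin.cons p (Fin.cons (w 0 - p) (fun i => (if σ i then p else w 0 - p) + w i.succ))

/-- the number of the classes `n` modulo `p` for which `p` divides a member -/
noncomputable def nu {k : ℕ} (σ : Fin k → Bool) (w : Fin (k + 1) → ℤ) (p : ℕ) : ℕ :=
  ((range p).filter (fun n : ℕ => ∃ i, (p : ℤ) ∣ member σ w n i)).card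

/-- the partial products of the singular series -/
noncomputable def partS {k : ℕ} (σ : Fin k → Bool) (w : Fin (k + 1) → ℤ) (z : ℕ) : ℝ :=
  ∏ p ∈ (Icc 1 z).filter Nat.Prime, (1 - (nu σ w p : ℝ) / p) / (1 - 1 / (p : ℝ)) ^ (k + 2)

/-- the singular series -/
noncomputable def S {k : ℕ} (σ : Fin k → Bool) (w : Fin (k + 1) → ℤ) : ℝ := Filter.limUnder atTop (partS σ w)

/-- there is no local obstruction (for `k = 0`: `N` is even) -/
def Admissible {k : ℕ} (σ : Fin k → Bool) (w : Fin (k + 1) → ℤ) : Prop := ∀ p : ℕ, p.Prime → ∃ n : ℕ, ∀ i, ¬ (p : ℤ) ∣ member σ w n i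

/-- the number of `n` with `y₁ < n ≤ y₂` such that all the members are (positive) primes -/
noncomputable def count {k : ℕ} (σ : Fin k → Bool) (w : Fin (k + 1) → ℤ) (y₁ y₂ : ℕ) : ℕ :=
  ((Ioc y₁ y₂).filter (fun n : ℕ => ∀ i, (member σ w n i).toNat.Prime)).card

/-- the sum of the `∏ 1 / log` of the members over the `n` with `y₁ < n ≤ y₂` such that all the members are at least `2` -/
noncomputable def li {k : ℕ} (σ : Fin k → Bool) (w : Fin (k + 1) → ℤ) (y₁ y₂ : ℕ) : ℝ :=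
  ∑ n ∈ (Ioc y₁ y₂).filter (fun n : ℕ => ∀ i, 2 ≤ member σ w n i), ∏ i, (Real.log ((member σ w n i : ℤ) : ℝ))⁻¹

/-- the formula for `w = (N, h_1, …, h_k)` -/
def Formula {k : ℕ} (σ : Fin k → Bool) (w : Fin (k + 1) → ℤ) (X A : ℕ) : Prop :=
  Tendsto (partS σ w) atTop (𝓝 (S σ w)) ∧
  (Admissible σ w → 0 < S σ w ∧ (∀ y₁ y₂ : ℕ, y₁ ≤ y₂ → y₂ ≤ X →
    |(count σ w y₁ y₂ : ℝ) - S σ w * li σ w y₁ y₂| ≤ S σ w * (X / Real.log X ^ (A + (k + 2)))) ∧
    ((X : ℤ) ≤ 2 * w 0 → (∀ i : Fin k, 0 ≤ w i.succ) → ∃ p q : ℕ, (p : ℤ) + q = w 0 ∧ p.Prime ∧ q.Prime ∧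
      ∀ i : Fin k, ((if σ i then (p : ℤ) else q) + w i.succ).toNat.Prime))

open Run7.h402.PD (FineD BadD Az nz lS lf nf cD lD nz_le_p Sd_tendsto Az_mod almost_sums Bsum sgS cgS)

theorem val_eq {k : ℕ} (σ : Fin k → Bool) (w : Fin (k + 1) → ℤ) (q : ℤ) (i : Fin (k + 2)) :
    (Fin.cons 1 (sgS σ) : Fin (k + 2) → ℤ) i * q + (Fin.cons 0 (cgS σ w) : Fin (k + 2) → ℤ) i = member σ w q i := by
  refine Fin.cases ?_ (fun j => ?_) i
  · simp [member]
  · refine Fin.cases ?_ (fun l => ?_) j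
    · simp only [member, sgS, cgS, Fin.cons_succ, Fin.cons_zero]
      ring
    · simp only [member, sgS, cgS, Fin.cons_succ]
      split_ifs <;> ring

theorem Az_iff {k : ℕ} (σ : Fin k → Bool) (w : Fin (k + 1) → ℤ) (p q : ℕ) :
    Az (Fin.cons 1 (sgS σ) : Fin (k + 2) → ℤ) (Fin.cons 0 (cgS σ w) : Fin (k + 2) → ℤ) p q ↔ ∃ i, (p : ℤ) ∣ member σ w q i := by
  unfold Az
  apply exists_congr
  intro i
  rw [val_eq]

theorem nu_eq {k : ℕ} (σ : Fin k → Bool) (w : Fin (k + 1) → ℤ) (p : ℕ) :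
    nz (Fin.cons 1 (sgS σ) : Fin (k + 2) → ℤ) (Fin.cons 0 (cgS σ w) : Fin (k + 2) → ℤ) p = nu σ w p := by
  unfold nz nu
  congr 1
  ext q
  rw [mem_filter, mem_filter, Az_iff]

theorem part_eq {k : ℕ} (σ : Fin k → Bool) (w : Fin (k + 1) → ℤ) :
    lS (k + 2) (nz (Fin.cons 1 (sgS σ) : Fin (k + 2) → ℤ) (Fin.cons 0 (cgS σ w) : Fin (k + 2) → ℤ)) = partS σ w := by
  funext z
  unfold lS lf partS
  have h : Pool.Agent.H373R2.T7.pz z = (Icc 1 z).filter Nat.Prime := by
    ext p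
    rw [Pool.Agent.H373R2.T7.mem_pz, mem_filter, mem_Icc]
    constructor
    · rintro ⟨h1, h2⟩
      exact ⟨⟨h2.one_lt.le, h1⟩, h2⟩
    · rintro ⟨⟨_, h1⟩, h2⟩
      exact ⟨h1, h2⟩
  rw [h]
  apply prod_congr rfl
  intro p _
  rw [nu_eq]

theorem adm_of {k : ℕ} (σ : Fin k → Bool) (w : Fin (k + 1) → ℤ) (h : Admissible σ w) (p : ℕ) (hp : p.Prime) :
    nz (Fin.cons 1 (sgS σ) : Fin (k + 2) → ℤ) (Fin.cons 0 (cgS σ w) : Fin (k + 2) → ℤ) p < p := by
  obtain ⟨n, hn⟩ := h p hp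
  unfold nz
  have h1 : (range p).filter (fun n => Az (Fin.cons 1 (sgS σ) : Fin (k + 2) → ℤ) (Fin.cons 0 (cgS σ w) : Fin (k + 2) → ℤ) p n) ⊆ (range p).erase (n % p) := by
    intro m hm
    rw [mem_filter] at hm
    rw [mem_erase]
    refine ⟨?_, hm.1⟩
    rintro rfl
    obtain ⟨i, hd⟩ := (Az_iff σ w p n).1 ((Az_mod _ _ p n).1 hm.2)
    exact hn i hd
  have h2 := card_le_card h1
  rw [card_erase_of_mem (mem_range.2 (Nat.mod_lt _ hp.pos)), card_range] at h2
  have := hp.pos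
  omega

theorem count_eq {k : ℕ} (σ : Fin k → Bool) (w : Fin (k + 1) → ℤ) (y₁ y₂ : ℕ) :
    cD (Fin.cons 1 (sgS σ) : Fin (k + 2) → ℤ) (Fin.cons 0 (cgS σ w) : Fin (k + 2) → ℤ) y₁ y₂ = count σ w y₁ y₂ := by
  unfold cD count nf
  simp only [val_eq]

theorem li_eq {k : ℕ} (σ : Fin k → Bool) (w : Fin (k + 1) → ℤ) (y₁ y₂ : ℕ) :
    lD (Fin.cons 1 (sgS σ) : Fin (k + 2) → ℤ) (Fin.cons 0 (cgS σ w) : Fin (k + 2) → ℤ) y₁ y₂ = li σ w y₁ y₂ := by
  unfold lD li
  simp only [val_eq]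

/-- existence from the formula -/
theorem exists_of {k : ℕ} (σ : Fin k → Bool) (w : Fin (k + 1) → ℤ) (X : ℕ) (L : ℝ) (hL : Real.exp L = X) (hL1 : 1000 ≤ L) (A' : ℕ)
    (hN : (X : ℤ) ≤ 2 * w 0) (hw0 : ∀ i : Fin k, 0 ≤ w i.succ) (hwX : ∀ i, w i ≤ X)
    (h2 : (2 : ℝ) ^ (k + 2) * 16 ≤ L ^ A') (s : ℝ) (hs : 0 < s)
    (h : |(count σ w (X / 8) (X / 4) : ℝ) - s * li σ w (X / 8) (X / 4)| ≤ s * (X / L ^ (A' + (k + 2)))) :
    ∃ p q : ℕ, (p : ℤ) + q = w 0 ∧ p.Prime ∧ q.Prime ∧ ∀ i : Fin k, ((if σ i then (p : ℤ) else q) + w i.succ).toNat.Prime := by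
  have hL0 : 0 < L := by linarith
  have hX0 : (0 : ℝ) < X := by rw [← hL]; exact Real.exp_pos _
  have hXL : (1000 : ℝ) ≤ X := by
    have := Real.add_one_le_exp L
    rw [hL] at this
    linarith
  have hXn : 1000 ≤ X := by exact_mod_cast hXL
  have hb : ∀ n : ℕ, n ∈ Ioc (X / 8) (X / 4) → ∀ i, 2 ≤ member σ w n i ∧ member σ w n i ≤ 2 * X := by
    intro n hn i
    rw [mem_Ioc] at hn
    have e0 := hwX 0
    refine Fin.cases ?_ (fun j => ?_) i
    · simp only [member, Fin.cons_zero]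
      omega
    · refine Fin.cases ?_ (fun l => ?_) j
      · simp only [member, Fin.cons_succ, Fin.cons_zero]
        omega
      · simp only [member, Fin.cons_succ]
        have e1 := hw0 l
        have e2 := hwX l.succ
        split_ifs
        · constructor <;> omega
        · constructor <;> omega
  have hlow : ((X : ℝ) / 9) * (1 / (2 * L) ^ (k + 2)) ≤ li σ w (X / 8) (X / 4) := by
    unfold li
    have e0 : (Ioc (X / 8) (X / 4)).filter (fun n : ℕ => ∀ i, 2 ≤ member σ w n i) = Ioc (X / 8) (X / 4) := by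
      apply filter_true_of_mem
      intro q hq i
      exact (hb q hq i).1
    rw [e0]
    have h3 : ∀ q ∈ Ioc (X / 8) (X / 4), 1 / (2 * L) ^ (k + 2) ≤ ∏ i, (Real.log ((member σ w q i : ℤ) : ℝ))⁻¹ := by
      intro q hq
      have e1 : 1 / (2 * L) ^ (k + 2) = ∏ _i : Fin (k + 2), (2 * L)⁻¹ := by
        rw [prod_const, card_univ, Fintype.card_fin, inv_pow, one_div]
      rw [e1]
      apply prod_le_prod
      · intro i _
        positivity
      · intro i _
        obtain ⟨h4, h6⟩ := hb q hq i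
        have h5 : (2 : ℝ) ≤ ((member σ w q i : ℤ) : ℝ) := by exact_mod_cast h4
        have h6' : ((member σ w q i : ℤ) : ℝ) ≤ 2 * X := by exact_mod_cast h6
        apply inv_anti₀ (Real.log_pos (by linarith))
        have h7 := Real.log_le_log (by linarith) h6'
        rw [Real.log_mul (by norm_num) hX0.ne', ← hL, Real.log_exp] at h7
        have := Real.log_two_lt_d9
        linarith
    have h4 := card_nsmul_le_sum (Ioc (X / 8) (X / 4)) _ _ h3
    rw [nsmul_eq_mul, Nat.card_Ioc] at h4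
    refine le_trans ?_ h4
    apply mul_le_mul_of_nonneg_right _ (by positivity)
    have h5 : X ≤ 9 * (X / 4 - X / 8) := by omega
    have h6 : (X : ℝ) ≤ 9 * ((X / 4 - X / 8 : ℕ) : ℝ) := by exact_mod_cast h5
    linarith
  have hpos : 0 < (count σ w (X / 8) (X / 4) : ℝ) := by
    have h3 := (abs_le.1 h).1
    have h4 : s * (X / L ^ (A' + (k + 2))) < s * li σ w (X / 8) (X / 4) := by
      apply mul_lt_mul_of_pos_left _ hs
      refine lt_of_lt_of_le ?_ hlow
      rw [pow_add, mul_pow]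
      have h5 : 0 < L ^ (k + 2) := by positivity
      have h6 : (0 : ℝ) < 2 ^ (k + 2) := by positivity
      have e1 : (X : ℝ) / 9 * (1 / (2 ^ (k + 2) * L ^ (k + 2))) = X / (9 * (2 ^ (k + 2) * L ^ (k + 2))) := by field_simp
      rw [e1]
      apply div_lt_div_of_pos_left hX0 (by positivity)
      calc 9 * (2 ^ (k + 2) * L ^ (k + 2)) < (2 ^ (k + 2) * 16) * L ^ (k + 2) := by nlinarith [mul_pos h6 h5]
        _ ≤ L ^ A' * L ^ (k + 2) := by gcongr
    linarith
  have h3 : 0 < count σ w (X / 8) (X / 4) := by exact_mod_cast hpos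
  unfold count at h3
  rw [card_pos] at h3
  obtain ⟨n, hn⟩ := h3
  rw [mem_filter] at hn
  obtain ⟨hn1, hn2⟩ := hn
  have e0 := hn2 0
  have e1 := hn2 1
  have e1' : member σ w n 1 = w 0 - n := by
    have : (1 : Fin (k + 2)) = (0 : Fin (k + 1)).succ := rfl
    rw [this]
    simp [member]
  have e0' : member σ w n 0 = n := by simp [member]
  rw [e0', Int.toNat_natCast] at e0
  rw [e1'] at e1
  have hge : (2 : ℤ) ≤ w 0 - n := by
    have := (hb n hn1 1).1
    rwa [e1'] at this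
  refine ⟨n, (w 0 - n).toNat, ?_, e0, e1, fun i => ?_⟩
  · rw [Int.toNat_of_nonneg (by omega)]
    ring
  · have e2 := hn2 i.succ.succ
    have e3 : member σ w n i.succ.succ = (if σ i then (n : ℤ) else w 0 - n) + w i.succ := by simp [member]
    rw [e3] at e2
    rw [Int.toNat_of_nonneg (by omega)]
    exact e2

/-- **Sums of two primes with long constellations around both of them, for almost all `(N, h_1, …, h_k)` in short boxes.** -/
theorem result : ∀ A B : ℕ, ∃ C X₀ : ℕ, ∀ X : ℕ, X₀ ≤ X → ∀ k : ℕ, (k : ℝ) ≤ B * Real.log (Real.log X) →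
    ∀ (σ : Fin k → Bool) (b : Fin (k + 1) → ℤ) (H : Fin (k + 1) → ℕ), (∀ i, (X : ℝ) ^ (1 / 3 : ℝ) * Real.log X ^ C ≤ H i) →
    (∀ i, -(X : ℤ) ≤ b i ∧ b i + H i ≤ X) →
    (((Fintype.piFinset (fun i : Fin (k + 1) => Ico (b i) (b i + H i))).filter (fun w => ¬ Formula σ w X A)).card : ℝ) ≤
      (∏ i, (H i : ℝ)) / Real.log X ^ A := by
  intro A B
  obtain ⟨C, X0, h0⟩ := almost_sums B (A + B + 2)
  refine ⟨C, max X0 (max 3 ⌈Real.exp 1000⌉₊), fun X hX k hkB σ b H hH hb => ?_⟩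
  have hX3 : 3 ≤ X := le_trans (le_trans (le_max_left _ _) (le_max_right _ _)) hX
  have hX0 : (0 : ℝ) < X := by exact_mod_cast (by omega : 0 < X)
  have hXL : Real.exp 1000 ≤ X := (Nat.le_ceil _).trans (by exact_mod_cast le_trans (le_trans (le_max_right _ _) (le_max_right _ _)) hX)
  have h1 := h0 X (le_trans (le_max_left _ _) hX) k hkB σ b H hH hb
  set L : ℝ := Real.log X with hL
  have hL1 : 1000 ≤ L := by rwa [hL, Real.le_log_iff_exp_le hX0]
  have hL0 : 0 < L := by linarith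
  have hXe : Real.exp L = X := by rw [hL, Real.exp_log hX0]
  have h2k : (2 : ℝ) ^ (k + 2) * 16 ≤ L ^ (A + B + 2) := by
    have h3 : (2 : ℝ) ^ k ≤ L ^ B := by
      have h4 : (2 : ℝ) ^ k ≤ Real.exp k := by
        rw [← Real.exp_one_pow]
        apply pow_le_pow_left₀ (by norm_num)
        have := Real.add_one_le_exp (1 : ℝ)
        linarith
      refine h4.trans ?_
      have h5 : L ^ B = Real.exp (B * Real.log L) := by rw [Real.exp_nat_mul, Real.exp_log hL0]
      rw [h5]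
      exact Real.exp_le_exp.2 hkB
    have h4 : 1 ≤ L ^ A := one_le_pow₀ (by linarith)
    calc (2 : ℝ) ^ (k + 2) * 16 = 2 ^ k * 64 := by rw [pow_succ, pow_succ]; ring
      _ ≤ L ^ B * (L * L) := by
          apply mul_le_mul h3 _ (by norm_num) (by positivity)
          nlinarith
      _ = 1 * (L ^ B * L ^ 2) := by ring
      _ ≤ L ^ A * (L ^ B * L ^ 2) := by gcongr
      _ = L ^ (A + B + 2) := by rw [pow_add, pow_add]; ring
  have hPH : 0 ≤ ∏ i, (H i : ℝ) := prod_nonneg fun i _ => Nat.cast_nonneg _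
  have hmono : (∏ i, (H i : ℝ)) / L ^ (A + B + 2) ≤ (∏ i, (H i : ℝ)) / L ^ A := by
    apply div_le_div_of_nonneg_left hPH (by positivity)
    exact pow_le_pow_right₀ (by linarith) (by omega)
  refine le_trans ?_ (h1.trans hmono)
  have hsub : (Fintype.piFinset (fun i : Fin (k + 1) => Ico (b i) (b i + H i))).filter (fun w => ¬ Formula σ w X A) ⊆
      (Fintype.piFinset (fun i : Fin (k + 1) => Ico (b i) (b i + H i))).filter (fun w => Bsum (A + B + 2) X σ w) := by
    intro c hc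
    rw [mem_filter] at hc ⊢
    refine ⟨hc.1, fun hF => hc.2 ?_⟩
    obtain ⟨hind, hmain⟩ := hF
    have hne : ∀ i, (Fin.cons 1 (sgS σ) : Fin (k + 2) → ℤ) i ≠ 0 := by
      intro i
      refine Fin.cases ?_ (fun j => ?_) i
      · simp
      · refine Fin.cases ?_ (fun l => ?_) j
        · simp [sgS]
        · simp only [sgS, Fin.cons_succ]
          split_ifs <;> norm_num
    have hlim : Tendsto (partS σ c) atTop (𝓝 (S σ c)) := by
      unfold S
      apply tendsto_nhds_limUnder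
      obtain ⟨s, hs⟩ := Sd_tendsto _ _ hne hind
      rw [part_eq] at hs
      exact ⟨s, hs⟩
    refine ⟨hlim, fun hadm => ?_⟩
    obtain ⟨g1, g2⟩ := hmain (adm_of σ c hadm) (S σ c) (by rw [part_eq]; exact hlim)
    have g3 : ∀ y₁ y₂ : ℕ, y₁ ≤ y₂ → y₂ ≤ X → |(count σ c y₁ y₂ : ℝ) - S σ c * li σ c y₁ y₂| ≤ S σ c * (X / L ^ (A + B + 2 + (k + 2))) := by
      intro y₁ y₂ h12 hy
      have h3 := (g2 y₁ y₂ h12 hy).2
      rw [count_eq, li_eq] at h3
      exact h3
    refine ⟨g1, fun y₁ y₂ h12 hy => ?_, fun hN hc0 => ?_⟩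
    · refine (g3 y₁ y₂ h12 hy).trans ?_
      apply mul_le_mul_of_nonneg_left _ g1.le
      apply div_le_div_of_nonneg_left hX0.le (by positivity)
      exact pow_le_pow_right₀ (by linarith) (by omega)
    · refine exists_of σ c X L hXe hL1 (A + B + 2) hN hc0 (fun i => ?_) h2k (S σ c) g1
        (g3 (X / 8) (X / 4) (by omega) (by omega))
      have h3 := mem_Ico.1 (Fintype.mem_piFinset.1 hc.1 i)
      have h4 := hb i
      omega
  exact_mod_cast card_le_card hsub

end Pool.Agent.Results.MP_c6d112_nt.SumsWithLongConstellations
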