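import Pool.Agent.Run7.h90.AU.Shift

set_option autoImplicit false

/-!
# Sums of two members of twin pairs at the members of thin families of residues modulo a prime

Let `p` be a large prime and let `(v_i)`, `i ∈ s`, be a family of residues modulo `p` whose exponential sums
`∑ e(ξ v_i / p)`, `ξ ≠ 0`, are at most `p ^ (-ε) |s|`; the family may be very thin. Examples: the values of a sparse
polynomial of arbitrary degree on a subgroup of order `p ^ η`, the values `c_1 g_1 ^ n + ... + c_k g_k ^ n`, `n < N`,
`N ≥ p ^ η`. The theorem is about the integers `n` congruent to a member of the family modulo `p` in an interval of length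
`L ≥ p ^ (1 - δ)`. Let `N > 4` be
even and `σ, τ ∈ {2, -2}`. Uniformly in all `N ≤ p ^ A` and all signs for which the four numbers `n, n + σ, N - n,
N - n + τ` have no fixed prime divisor, these four numbers are simultaneously without prime factors up to `z` with the
frequency predicted by Hardy and Littlewood for primes. For every even `N > 4` there are such signs, so that (`M + L < N`)
`N` is a sum of two numbers `n`, `N - n` which both belong to twin pairs of almost primes, with `n` in a thin set.

Proof: bound of Bourgain, Glibichuk and Konyagin in the form for recurrences and monomials (`Agent/Run7/h823/BK9`);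
equidistribution in the residue classes modulo all integers up to `p ^ δ` and the fundamental lemma of the sieve
(`Agent/Run7/h90/AU`).
-/

namespace Pool.Agent.Results.MP_c6d112_nt.TwinSumsInSparseFamilies

open Finset Filter Topology
open Pool.Agent.Run7.h90.AU (UniformFormula UniformOrders SparseSmall RecurrencesSmall)

/-- The data `(N, σ, τ)`. -/
abbrev Data : Type := ℤ × ℤ × ℤ

/-- The product of the four numbers `n, n + σ, N - n, N - n + τ`. -/
def four (x : Data) (n : ℤ) : ℤ := n * (n + x.2.1) * (x.1 - n) * (x.1 - n + x.2.2)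

/-- The number of the residues `n` modulo `q` for which `q` divides one of the four numbers. -/
def w (x : Data) (q : ℕ) : ℕ := ((range q).filter fun n : ℕ => (q : ℤ) ∣ four x n).card

/-- `N > 4` is even, `σ, τ ∈ {2, -2}` and the four numbers have no fixed prime divisor. -/
def Good (x : Data) : Prop :=
  4 < x.1 ∧ 2 ∣ x.1 ∧ (x.2.1 = 2 ∨ x.2.1 = -2) ∧ (x.2.2 = 2 ∨ x.2.2 = -2) ∧ ∀ q : ℕ, q.Prime → w x q < q

/-- The absolute values of `n, n + σ, N - n, N - n + τ` have the property `P`. -/
def TwinSum (x : Data) (P : ℕ → Prop) (n : ℕ) : Prop :=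
  P n ∧ P ((n : ℤ) + x.2.1).natAbs ∧ P (x.1 - (n : ℤ)).natAbs ∧ P (x.1 - (n : ℤ) + x.2.2).natAbs

/-- The partial products, over the primes `q ≤ z`, of the singular series. -/
noncomputable def partialConstant (x : Data) (z : ℕ) : ℝ :=
  ∏ q ∈ (range (z + 1)).filter Nat.Prime, ((1 - (w x q : ℝ) / q) / (1 - 1 / (q : ℝ)) ^ 4)

/-- A bound for the data. -/
def size (x : Data) : ℝ := (x.1 : ℝ) + 2

/-- constant terms -/
def ca (x : Data) : Fin 4 → ℤ := ![0, x.2.1, x.1, x.1 + x.2.2]

/-- leading coefficients -/
def cd (_ : Data) : Fin 4 → ℤ := ![1, 1, -1, -1]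

theorem prod_eq (x : Data) (n : ℤ) : ∏ j, (ca x j + cd x j * n) = four x n := by
  unfold ca cd four
  rw [Fin.prod_univ_four]
  simp
  ring

theorem om_eq (x : Data) (q : ℕ) : Pool.Agent.Run7.h90.AU.om (ca x) (cd x) q = w x q := by
  unfold Pool.Agent.Run7.h90.AU.om w
  congr 1
  ext n
  rw [mem_filter, mem_filter, prod_eq]

theorem isPat : Pool.Agent.Run7.h90.AU.Pat 4 TwinSum partialConstant size Good ca cd where
  nd := by
    intro x hx
    obtain ⟨h1, h2, h3, h4, h5⟩ := hx
    refine ⟨?_, ?_, fun l hl => ?_⟩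
    · intro j
      unfold cd
      fin_cases j <;> simp
    · intro i j hij
      unfold ca cd
      fin_cases i <;> fin_cases j <;> first | exact absurd rfl hij | (simp; omega)
    · apply Pool.Agent.Run7.h90.AU.adm_of_om_lt
      rw [om_eq]
      exact h5 l hl
  sa := by
    intro x hx j
    obtain ⟨h1, h2, h3, h4, h5⟩ := hx
    have h6 : (4 : ℝ) < x.1 := by exact_mod_cast h1
    unfold size ca
    have k3 : |(x.2.1 : ℝ)| = 2 := by rcases h3 with h | h <;> rw [h] <;> norm_num
    have k4 : |(x.2.2 : ℝ)| = 2 := by rcases h4 with h | h <;> rw [h] <;> norm_num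
    fin_cases j
    · simp; linarith
    · simp; rw [k3]; linarith
    · simp; rw [abs_of_pos (by linarith)]; linarith
    · simp
      refine (abs_add_le _ _).trans ?_
      rw [k4, abs_of_pos (by linarith)]
  sd := by
    intro x hx j
    obtain ⟨h1, h2, h3, h4, h5⟩ := hx
    have h6 : (4 : ℝ) < x.1 := by exact_mod_cast h1
    unfold size cd
    fin_cases j <;> simp <;> linarith
  pat := by
    intro x hx P n hn
    unfold TwinSum ca cd
    simp only [Fin.forall_fin_succ, Fin.forall_fin_zero, Matrix.cons_val_zero, Matrix.cons_val_succ, and_true]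
    have e0 : ((0 : ℤ) + 1 * (n : ℤ)).natAbs = n := by omega
    have e1 : (x.2.1 + 1 * (n : ℤ)) = ((n : ℤ) + x.2.1) := by ring
    have e2 : (x.1 + -1 * (n : ℤ)) = (x.1 - (n : ℤ)) := by ring
    have e3 : (x.1 + x.2.2 + -1 * (n : ℤ)) = (x.1 - (n : ℤ) + x.2.2) := by ring
    rw [e0, e1, e2, e3]
  con := by
    intro x hx
    refine Eventually.of_forall fun z => ?_
    unfold partialConstant Pool.Agent.Run7.h90.AU.psing
    exact prod_congr rfl fun q _ => by rw [om_eq]

theorem adm_exists (N : ℤ) (hN : 4 < N) (h2 : 2 ∣ N) : ∃ σ τ : ℤ, Good (N, σ, τ) := by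
  have key : ∀ σ τ : ℤ, (σ = 2 ∨ σ = -2) → (τ = 2 ∨ τ = -2) → (∃ n : ℤ, ¬ (3 : ℤ) ∣ four (N, σ, τ) n) →
      Good (N, σ, τ) := by
    intro σ τ hσ hτ h3
    refine ⟨hN, h2, hσ, hτ, ?_⟩
    have hnd : Pool.Agent.Run7.h90.AU.ND (ca (N, σ, τ)) (cd (N, σ, τ)) := by
      refine Pool.Agent.Run7.h90.AU.nd_of ?_ ?_ ?_ ?_
      · intro j
        unfold cd
        fin_cases j <;> simp
      · intro i j hij
        unfold ca cd
        fin_cases i <;> fin_cases j <;> first | exact absurd rfl hij | (simp; omega)
      · intro j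
        unfold cd
        fin_cases j
        · exact isCoprime_one_right
        · exact isCoprime_one_right
        · exact isCoprime_one_right.neg_right
        · exact isCoprime_one_right.neg_right
      · intro l hl hl4
        have hl2 := hl.two_le
        have hne4 : l ≠ 4 := by
          rintro rfl
          exact absurd hl (by decide)
        have hcase : l = 2 ∨ l = 3 := by omega
        rcases hcase with rfl | rfl
        · refine ⟨1, ?_⟩
          rw [prod_eq]
          unfold four
          simp only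
          have hp : Prime ((2 : ℕ) : ℤ) := Nat.prime_iff_prime_int.1 Nat.prime_two
          intro hd
          rcases hp.dvd_or_dvd hd with hd | hd
          · rcases hp.dvd_or_dvd hd with hd | hd
            · rcases hp.dvd_or_dvd hd with hd | hd
              · exact absurd (Int.natCast_dvd.1 hd) (by norm_num)
              · have hd' : (2 : ℤ) ∣ 1 + σ := hd
                omega
            · have hd' : (2 : ℤ) ∣ N - 1 := hd
              omega
          · have hd' : (2 : ℤ) ∣ N - 1 + τ := hd
            omega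
        · obtain ⟨n, hn⟩ := h3
          refine ⟨n, ?_⟩
          rw [prod_eq]
          exact_mod_cast hn
    intro q hq
    rw [← om_eq]
    exact Pool.Agent.Run7.h90.AU.om_lt_of_adm _ _ q hq.pos (hnd.2.2 q hq)
  have hp3 : Prime (3 : ℤ) := Int.prime_three
  have step : ∀ σ τ n : ℤ, ¬ 3 ∣ n → ¬ 3 ∣ n + σ → ¬ 3 ∣ N - n → ¬ 3 ∣ N - n + τ → ¬ (3 : ℤ) ∣ four (N, σ, τ) n := by
    intro σ τ n a1 a2 a3 a4 hd
    unfold four at hd
    rcases hp3.dvd_or_dvd hd with hd | hd
    · rcases hp3.dvd_or_dvd hd with hd | hd
      · rcases hp3.dvd_or_dvd hd with hd | hd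
        · exact a1 hd
        · exact a2 hd
      · exact a3 hd
    · exact a4 hd
  have h3 : N % 3 = 0 ∨ N % 3 = 1 ∨ N % 3 = 2 := by omega
  rcases h3 with h3 | h3 | h3
  · exact ⟨2, -2, key 2 (-2) (Or.inl rfl) (Or.inr rfl) ⟨2, step _ _ _ (by omega) (by omega) (by omega) (by omega)⟩⟩
  · exact ⟨2, 2, key 2 2 (Or.inl rfl) (Or.inl rfl) ⟨2, step _ _ _ (by omega) (by omega) (by omega) (by omega)⟩⟩
  · exact ⟨-2, -2, key (-2) (-2) (Or.inr rfl) (Or.inr rfl) ⟨1, step _ _ _ (by omega) (by omega) (by omega) (by omega)⟩⟩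

theorem result : UniformFormula 4 TwinSum partialConstant size Good ∧
    UniformOrders 4 TwinSum partialConstant size Good ∧
    (∀ N : ℤ, 4 < N → 2 ∣ N → ∃ σ τ : ℤ, Good (N, σ, τ)) ∧ SparseSmall ∧ RecurrencesSmall :=
  ⟨isPat.formula, isPat.orders, adm_exists, Pool.Agent.Run7.h90.AU.sparse_small, Pool.Agent.Run7.h90.AU.rec_small⟩

end Pool.Agent.Results.MP_c6d112_nt.TwinSumsInSparseFamilies
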