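import Pool.Agent.Run7.h620.PD.Uni

set_option autoImplicit false

/-!
# Every large integer is a sum of two numbers of twin almost prime type, one of them a two-digit palindrome

`n` runs over the palindromes with `K` base `b` digits, all of them `e` or `f`; `m` is an arbitrary integer with
`|m| ≤ b ^ (L K)`, and `s, t ∈ {2, -2}`. For at least `c 2 ^ (K / 2) / K ^ 4` of these palindromes all four numbers
`n`, `n + s`, `m - n`, `m - n + t` have at most `r` prime factors.

Proof: level of distribution of the palindromes with two digits (balanced digits of all fractions with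
denominators up to `exp (c K)` are counted at once), a residue class modulo a fixed number in which none of the four
numbers is divisible by a high power of a small prime, the fundamental lemma, Mertens.
-/

namespace Pool.Agent.Results.MP_c6d112_nt.TwoDigitPalindromes

open Finset Filter

/-- `n` has exactly `K` base `b` digits, all of them `e` or `f`, and they read the same backwards. -/
def Pal (b e f K n : ℕ) : Prop :=
  (Nat.digits b n).length = K ∧ (Nat.digits b n).reverse = Nat.digits b n ∧ ∀ d ∈ Nat.digits b n, d = e ∨ d = f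

/-- `x` is not `0` and has at most `r` prime factors, counted with multiplicity. -/
def Almost (r : ℕ) (x : ℤ) : Prop := x ≠ 0 ∧ x.natAbs.primeFactorsList.length ≤ r

open Classical in
/-- **Dubner's problem with almost primes and palindromes with two digits, for every integer.** -/
theorem result : ∀ b : ℕ, 2 ≤ b → ∀ e f : ℕ, e < b → f < b → e ≠ 0 → f ≠ e → ∀ L : ℕ, 1 ≤ L →
    ∃ c : ℝ, 0 < c ∧ ∃ r : ℕ, ∀ᶠ K : ℕ in atTop, ∀ m : ℤ, |m| ≤ (b : ℤ) ^ (L * K) →
      ∀ s t : ℤ, |s| = 2 → |t| = 2 →
      c * (2 : ℝ) ^ ((K : ℝ) / 2) / (K : ℝ) ^ 4 ≤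
        (((Finset.range (b ^ K)).filter (fun n : ℕ => Pal b e f K n ∧ Almost r n ∧ Almost r (n + s) ∧
          Almost r (m - n) ∧ Almost r (m - n + t))).card : ℝ) := by
  intro b hb e f he hf he0 hef L hL
  obtain ⟨c, hc, r, h⟩ := Pool.Agent.Run7.h620.PD.lin_uniform b hb e f he hf he0 hef 4 (by norm_num)
    (fun i => if i < 2 then 1 else -1) (fun i _ => by split_ifs <;> norm_num) (2 * L + 2) (by omega)
  refine ⟨c, hc, r, ?_⟩
  filter_upwards [h, eventually_ge_atTop 1] with K hK hK1 m hm s t hs ht
  have hm' : m.natAbs ≤ b ^ (L * K) := by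
    have h3 : ((m.natAbs : ℕ) : ℤ) ≤ ((b ^ (L * K) : ℕ) : ℤ) := by
      rw [Int.natCast_natAbs]
      push_cast
      exact hm
    exact_mod_cast h3
  have h1b : 1 ≤ b ^ (L * K) := Nat.one_le_pow _ _ (by omega)
  have h4b : 4 ≤ b ^ (2 * K) := by
    calc 4 = 2 ^ 2 := by norm_num
      _ ≤ 2 ^ (2 * K) := Nat.pow_le_pow_right (by norm_num) (by omega)
      _ ≤ b ^ (2 * K) := Nat.pow_le_pow_left hb _
  have hbig : b ^ (L * K) + 2 ≤ b ^ ((2 * L + 2) * K) := by
    calc b ^ (L * K) + 2 ≤ b ^ (L * K) * 4 := by omega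
      _ ≤ b ^ (L * K) * b ^ (2 * K) := Nat.mul_le_mul_left _ h4b
      _ = b ^ (L * K + 2 * K) := by rw [pow_add]
      _ ≤ _ := Nat.pow_le_pow_right (by omega) (by nlinarith)
  have hs' : s.natAbs = 2 := by
    rw [← Int.natCast_natAbs] at hs
    exact_mod_cast hs
  have ht' : t.natAbs = 2 := by
    rw [← Int.natCast_natAbs] at ht
    exact_mod_cast ht
  obtain ⟨P, hP1, hP2⟩ := hK (fun i => if i = 0 then 0 else if i = 1 then s else if i = 2 then m else m + t) (by
    intro i hi
    split_ifs <;> omega)
  refine hP1.trans ?_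
  have hle : P.card ≤ ((Finset.range (b ^ K)).filter (fun n : ℕ => Pal b e f K n ∧ Almost r n ∧ Almost r (n + s) ∧
          Almost r (m - n) ∧ Almost r (m - n + t))).card := by
    apply card_le_card
    intro n hn
    obtain ⟨h1, h2, h3⟩ := hP2 n hn
    have g0 := h3 0 (by norm_num)
    have g1 := h3 1 (by norm_num)
    have g2 := h3 2 (by norm_num)
    have g3 := h3 3 (by norm_num)
    norm_num [ArithmeticFunction.cardFactors_apply] at g0 g1 g2 g3
    have e2 : -(n : ℤ) + m = m - n := by ring
    have e3 : -(n : ℤ) + (m + t) = m - n + t := by ring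
    rw [e2] at g2
    rw [e3] at g3
    rw [mem_filter, mem_range]
    refine ⟨h1, h2, ⟨?_, ?_⟩, g1, g2, g3⟩
    · exact_mod_cast g0.1
    · rw [Int.natAbs_natCast]
      exact g0.2
  exact_mod_cast hle

end Pool.Agent.Results.MP_c6d112_nt.TwoDigitPalindromes
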